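import Mathlib
import Pool.Agent.Helper890.Tp.Cotype

set_option autoImplicit false

namespace Pool.Agent.Results.MP_138624_an.ProportionalTypeTwo

open Finset Pool.Agent.Helper890.Tp
open scoped BigOperators

/-! ### The notions of the question -/

/-- `N` is a norm on `ℝⁿ`. -/
structure IsNorm {n : ℕ} (N : (Fin n → ℝ) → ℝ) : Prop where
  nonneg : ∀ x, 0 ≤ N x
  eq_zero : ∀ x, N x = 0 → x = 0
  smul : ∀ (c : ℝ) (x : Fin n → ℝ), N (c • x) = |c| * N x
  add_le : ∀ x y, N (x + y) ≤ N x + N y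

/-- `(𝔼 ‖∑ᵢ εᵢ xᵢ‖²)^{1/2}`, the average running over all `2ᵏ` choices of signs `εᵢ = ±1`. -/
noncomputable def rad {n k : ℕ} (N : (Fin n → ℝ) → ℝ) (x : Fin k → Fin n → ℝ) : ℝ :=
  Real.sqrt ((∑ ε : Fin k → ℤˣ, N (∑ i, ((ε i : ℤ) : ℝ) • x i) ^ 2) / 2 ^ k)

/-- The type 2 inequality with constant `T` on the subspace `E` of `(ℝⁿ, N)`.
The type 2 constant `T₂(E)` is the least such `T`, so this says `T₂(E) ≤ T`. -/
def TypeTwo {n : ℕ} (N : (Fin n → ℝ) → ℝ) (E : Submodule ℝ (Fin n → ℝ)) (T : ℝ) : Prop :=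
  ∀ (k : ℕ) (x : Fin k → Fin n → ℝ), (∀ i, x i ∈ E) →
    rad N x ≤ T * Real.sqrt (∑ i, N (x i) ^ 2)

/-- The cotype `q` inequality with constant `C` in `(ℝⁿ, N)`. -/
def Cotype {n : ℕ} (N : (Fin n → ℝ) → ℝ) (q C : ℝ) : Prop :=
  ∀ (k : ℕ) (x : Fin k → Fin n → ℝ), (∑ i, N (x i) ^ q) ^ (1 / q) ≤ C * rad N x

/-- `c` is the cotype `q` constant `C_q(ℝⁿ, N)`: the least `C` for which the cotype `q`
inequality holds. -/
def IsCotypeConst {n : ℕ} (N : (Fin n → ℝ) → ℝ) (q c : ℝ) : Prop :=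
  IsLeast {C : ℝ | Cotype N q C} c

/-! ### The example: the `ℓ₂`-sum of `ℓ₁ᵐ(ℓ₄ᵐ)` and `ℓ_∞⁹` -/

/-- index set of the example -/
abbrev Idx (m : ℕ) := (Fin m × Fin m) ⊕ Fin 9

/-- numbering of the coordinates -/
def eqv (m : ℕ) : Fin (m * m + 9) ≃ Idx m :=
  finSumFinEquiv.symm.trans (Equiv.sumCongr finProdFinEquiv.symm (Equiv.refl _))

def fst {m : ℕ} (x : Fin (m * m + 9) → ℝ) : Fin m × Fin m → ℝ := fun a => x ((eqv m).symm (.inl a))
def snd {m : ℕ} (x : Fin (m * m + 9) → ℝ) : Fin 9 → ℝ := fun j => x ((eqv m).symm (.inr j))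

/-- the norm of the example -/
noncomputable def NX (m : ℕ) (x : Fin (m * m + 9) → ℝ) : ℝ :=
  Real.sqrt (nn (fst x) ^ 2 + ‖snd x‖ ^ 2)

lemma NX_sq (m : ℕ) (x : Fin (m * m + 9) → ℝ) : NX m x ^ 2 = nn (fst x) ^ 2 + ‖snd x‖ ^ 2 :=
  Real.sq_sqrt (by positivity)

lemma mink (a b c d : ℝ) (ha : 0 ≤ a) (hb : 0 ≤ b) (hc : 0 ≤ c) (hd : 0 ≤ d) :
    Real.sqrt ((a + c) ^ 2 + (b + d) ^ 2) ≤ Real.sqrt (a ^ 2 + b ^ 2) + Real.sqrt (c ^ 2 + d ^ 2) := by
  apply Real.sqrt_le_iff.mpr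
  refine ⟨by positivity, ?_⟩
  have h1 : (Real.sqrt (a ^ 2 + b ^ 2) + Real.sqrt (c ^ 2 + d ^ 2)) ^ 2
      = (a ^ 2 + b ^ 2) + (c ^ 2 + d ^ 2)
        + 2 * (Real.sqrt (a ^ 2 + b ^ 2) * Real.sqrt (c ^ 2 + d ^ 2)) := by
    rw [add_sq, Real.sq_sqrt (by positivity), Real.sq_sqrt (by positivity)]
    ring
  have h2 : a * c + b * d ≤ Real.sqrt (a ^ 2 + b ^ 2) * Real.sqrt (c ^ 2 + d ^ 2) := by
    rw [← Real.sqrt_mul (by positivity)]
    apply Real.le_sqrt_of_sq_le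
    nlinarith [sq_nonneg (a * d - b * c)]
  rw [h1]
  nlinarith

lemma isNorm_NX (m : ℕ) : IsNorm (NX m) where
  nonneg := fun x => Real.sqrt_nonneg _
  eq_zero := by
    intro x hx
    have h := NX_sq m x
    rw [hx] at h
    have h1 : nn (fst x) = 0 := by
      nlinarith [sq_nonneg (nn (fst x)), sq_nonneg ‖snd x‖, nn_nonneg (fst x)]
    have h2 : ‖snd x‖ = 0 := by
      nlinarith [sq_nonneg (nn (fst x)), sq_nonneg ‖snd x‖, norm_nonneg (snd x)]
    have h3 := nn_eq_zero h1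
    have h4 := norm_eq_zero.mp h2
    funext l
    rcases hl : eqv m l with a | j
    · have : l = (eqv m).symm (.inl a) := by rw [← hl, Equiv.symm_apply_apply]
      rw [this]
      exact congrFun h3 a
    · have : l = (eqv m).symm (.inr j) := by rw [← hl, Equiv.symm_apply_apply]
      rw [this]
      exact congrFun h4 j
  smul := by
    intro c x
    unfold NX
    have h1 : fst (c • x) = c • fst x := rfl
    have h2 : snd (c • x) = c • snd x := rfl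
    rw [h1, h2, nn_smul, norm_smul, Real.norm_eq_abs, mul_pow, mul_pow, ← mul_add,
      Real.sqrt_mul (by positivity), Real.sqrt_sq (abs_nonneg _)]
  add_le := by
    intro x y
    unfold NX
    have h1 : fst (x + y) = fst x + fst y := rfl
    have h2 : snd (x + y) = snd x + snd y := rfl
    rw [h1, h2]
    refine le_trans (Real.sqrt_le_sqrt ?_)
      (mink _ _ _ _ (nn_nonneg _) (norm_nonneg _) (nn_nonneg _) (norm_nonneg _))
    have h3 := nn_add (fst x) (fst y)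
    have h4 := norm_add_le (snd x) (snd y)
    have h5 : nn (fst x + fst y) ^ 2 ≤ (nn (fst x) + nn (fst y)) ^ 2 :=
      pow_le_pow_left₀ (nn_nonneg _) h3 2
    have h6 : ‖snd x + snd y‖ ^ 2 ≤ (‖snd x‖ + ‖snd y‖) ^ 2 :=
      pow_le_pow_left₀ (norm_nonneg _) h4 2
    linarith

lemma rad_eq {n k : ℕ} (N : (Fin n → ℝ) → ℝ) (x : Fin k → Fin n → ℝ) :
    rad N x = Real.sqrt (𝔼 e : Fin k → ℤˣ, N (∑ i, sg (e i) • x i) ^ 2) := by
  unfold rad
  rw [Fintype.expect_eq_sum_div_card]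
  congr 2
  simp

lemma fst_sum {m k : ℕ} (e : Fin k → ℤˣ) (x : Fin k → Fin (m * m + 9) → ℝ) :
    fst (∑ i, sg (e i) • x i) = ∑ i, sg (e i) • fst (x i) := by
  funext a
  simp [fst, Finset.sum_apply]

lemma snd_sum {m k : ℕ} (e : Fin k → ℤˣ) (x : Fin k → Fin (m * m + 9) → ℝ) :
    snd (∑ i, sg (e i) • x i) = ∑ i, sg (e i) • snd (x i) := by
  funext a
  simp [snd, Finset.sum_apply]

lemma sqrt3_four : Real.sqrt 3 ^ 4 = 9 := by
  have : Real.sqrt 3 ^ 4 = (Real.sqrt 3 ^ 2) ^ 2 := by ring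
  rw [this, Real.sq_sqrt (by norm_num)]; norm_num

lemma pow_four_rpow (a : ℝ) (ha : 0 ≤ a) : (a ^ 4) ^ (1 / (4 : ℝ)) = a := by
  rw [← Real.rpow_natCast, ← Real.rpow_mul ha]
  norm_num

lemma cotype_NX (m : ℕ) : Cotype (NX m) 4 (Real.sqrt 3) := by
  intro k x
  rw [rad_eq]
  set A := 𝔼 e : Fin k → ℤˣ, nn (∑ i, sg (e i) • fst (x i)) ^ 2 with hA
  set B := 𝔼 e : Fin k → ℤˣ, ‖∑ i, sg (e i) • snd (x i)‖ ^ 2 with hB
  have hQ : 𝔼 e : Fin k → ℤˣ, NX m (∑ i, sg (e i) • x i) ^ 2 = A + B := by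
    rw [hA, hB, ← Finset.expect_add_distrib]
    refine Finset.expect_congr rfl (fun e _ => ?_)
    rw [NX_sq, fst_sum, snd_sum]
  have hA0 : 0 ≤ A := Finset.expect_nonneg (fun e _ => sq_nonneg _)
  have hB0 : 0 ≤ B := Finset.expect_nonneg (fun e _ => sq_nonneg _)
  rw [hQ]
  have h1 : ∑ i, NX m (x i) ^ (4 : ℝ) = ∑ i, (nn (fst (x i)) ^ 2 + ‖snd (x i)‖ ^ 2) ^ 2 := by
    refine Finset.sum_congr rfl (fun i _ => ?_)
    rw [← NX_sq, ← pow_mul]
    norm_cast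
  rw [h1]
  have h2 := cot_comb k (fun i => nn (fst (x i)) ^ 2) (fun i => ‖snd (x i)‖ ^ 2) A B hA0 hB0
    (by
      refine le_trans (le_of_eq (Finset.sum_congr rfl (fun i _ => ?_)))
        (cot_nn k (fun i => fst (x i)))
      rw [← pow_mul])
    (by
      refine le_trans (le_of_eq (Finset.sum_congr rfl (fun i _ => ?_)))
        (cot_sup k (fun i => snd (x i)))
      rw [← pow_mul])
  have h3 : 9 * (A + B) ^ 2 = (Real.sqrt 3 * Real.sqrt (A + B)) ^ 4 := by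
    rw [mul_pow, sqrt3_four]
    have : Real.sqrt (A + B) ^ 4 = (Real.sqrt (A + B) ^ 2) ^ 2 := by ring
    rw [this, Real.sq_sqrt (by positivity)]
  rw [h3] at h2
  refine (Real.rpow_le_rpow (Finset.sum_nonneg (fun _ _ => by positivity)) h2
    (by norm_num)).trans ?_
  rw [pow_four_rpow _ (by positivity)]

/-- the unit vectors of the summand `ℓ_∞⁹` -/
def tst (m : ℕ) (i : Fin 9) : Fin (m * m + 9) → ℝ :=
  fun l => if eqv m l = .inr i then 1 else 0

lemma fst_tst (m : ℕ) (i : Fin 9) : fst (tst m i) = 0 := by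
  funext a
  simp [fst, tst]

lemma snd_tst (m : ℕ) (i : Fin 9) : snd (tst m i) = Pi.single i 1 := by
  funext j
  simp [snd, tst, Pi.single_apply]

lemma nn_zero' {m : ℕ} : nn (0 : Fin m × Fin m → ℝ) = 0 := by
  have := nn_smul (0 : ℝ) (0 : Fin m × Fin m → ℝ)
  simpa using this

lemma NX_tst (m : ℕ) (i : Fin 9) : NX m (tst m i) = 1 := by
  unfold NX
  rw [fst_tst, snd_tst, nn_zero']
  have : ‖(Pi.single i (1 : ℝ) : Fin 9 → ℝ)‖ = 1 := by
    rw [Pi.norm_single]; simp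
  rw [this]
  simp

lemma NX_tst_sum (m : ℕ) (e : Fin 9 → ℤˣ) : NX m (∑ i, sg (e i) • tst m i) = 1 := by
  unfold NX
  rw [fst_sum, snd_sum]
  simp only [fst_tst, snd_tst, smul_zero, Finset.sum_const_zero, nn_zero']
  have h1 : (∑ i, sg (e i) • (Pi.single i (1 : ℝ) : Fin 9 → ℝ)) = fun j => sg (e j) := by
    funext j
    simp [Finset.sum_apply, Pi.single_apply]
  have h2 : ‖(fun j => sg (e j) : Fin 9 → ℝ)‖ = 1 := by
    apply le_antisymm
    · rw [pi_norm_le_iff_of_nonneg (by norm_num)]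
      intro j
      rw [Real.norm_eq_abs, sg_abs]
    · have := norm_le_pi_norm (fun j => sg (e j) : Fin 9 → ℝ) 0
      rwa [Real.norm_eq_abs, sg_abs] at this
  rw [h1, h2]
  simp

lemma isCotypeConst_NX (m : ℕ) : IsCotypeConst (NX m) 4 (Real.sqrt 3) := by
  refine ⟨cotype_NX m, ?_⟩
  intro C hC
  have h := hC 9 (tst m)
  rw [rad_eq] at h
  simp only [NX_tst, NX_tst_sum, one_pow, Real.one_rpow, Fintype.expect_const, Real.sqrt_one,
    mul_one, Finset.sum_const, Finset.card_univ, Fintype.card_fin, nsmul_eq_mul] at h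
  have h9 : ((9 : ℕ) : ℝ) = Real.sqrt 3 ^ 4 := by rw [sqrt3_four]; norm_num
  rw [h9, pow_four_rpow _ (Real.sqrt_nonneg _)] at h
  exact h

/-! ### Lower bound for the type 2 constants of proportional subspaces -/

/-- the inclusion of `ℓ₁ᵐ(ℓ₄ᵐ)` -/
def incl (m : ℕ) : (Fin m × Fin m → ℝ) →ₗ[ℝ] (Fin (m * m + 9) → ℝ) where
  toFun y := fun l => Sum.elim y (fun _ => 0) (eqv m l)
  map_add' y z := by
    funext l
    rcases h : eqv m l with a | j <;> simp [h]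
  map_smul' c y := by
    funext l
    rcases h : eqv m l with a | j <;> simp [h]

lemma fst_incl (m : ℕ) (y : Fin m × Fin m → ℝ) : fst (incl m y) = y := by
  funext a
  simp [fst, incl]

lemma snd_incl (m : ℕ) (y : Fin m × Fin m → ℝ) : snd (incl m y) = 0 := by
  funext a
  simp [snd, incl]

lemma NX_incl (m : ℕ) (y : Fin m × Fin m → ℝ) : NX m (incl m y) = nn y := by
  unfold NX
  rw [fst_incl, snd_incl]
  simp [Real.sqrt_sq (nn_nonneg y)]

def sndL (m : ℕ) : (Fin (m * m + 9) → ℝ) →ₗ[ℝ] (Fin 9 → ℝ) where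
  toFun := snd
  map_add' _ _ := rfl
  map_smul' _ _ := rfl

def fstL (m : ℕ) : (Fin (m * m + 9) → ℝ) →ₗ[ℝ] (Fin m × Fin m → ℝ) where
  toFun := fst
  map_add' _ _ := rfl
  map_smul' _ _ := rfl

lemma incl_fst {m : ℕ} {x : Fin (m * m + 9) → ℝ} (h : snd x = 0) : incl m (fst x) = x := by
  funext l
  simp only [incl, LinearMap.coe_mk, AddHom.coe_mk]
  rcases hl : eqv m l with a | j
  · have : l = (eqv m).symm (.inl a) := by rw [← hl, Equiv.symm_apply_apply]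
    rw [this]
    rfl
  · have : l = (eqv m).symm (.inr j) := by rw [← hl, Equiv.symm_apply_apply]
    rw [this]
    exact (congrFun h j).symm

lemma finrank_le (m : ℕ) (E : Submodule ℝ (Fin (m * m + 9) → ℝ)) :
    Module.finrank ℝ E ≤ Module.finrank ℝ (E.comap (incl m)) + 9 := by
  set g : E →ₗ[ℝ] (Fin 9 → ℝ) := (sndL m).comp E.subtype with hg
  have h1 := LinearMap.finrank_range_add_finrank_ker g
  have h2 : Module.finrank ℝ (LinearMap.range g) ≤ 9 := by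
    refine (Submodule.finrank_le _).trans ?_
    simp
  have hmem : ∀ x : LinearMap.ker g, fst ((x : E) : Fin (m * m + 9) → ℝ) ∈ E.comap (incl m) := by
    intro x
    rw [Submodule.mem_comap]
    have h0 : snd ((x : E) : Fin (m * m + 9) → ℝ) = 0 := LinearMap.mem_ker.mp x.2
    rw [incl_fst h0]
    exact (x : E).2
  set f : LinearMap.ker g →ₗ[ℝ] E.comap (incl m) :=
    LinearMap.codRestrict (E.comap (incl m))
      ((fstL m).comp (E.subtype.comp (LinearMap.ker g).subtype)) hmem with hf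
  have hinj : Function.Injective f := by
    intro x y hxy
    have h3 : fst ((x : E) : Fin (m * m + 9) → ℝ) = fst ((y : E) : Fin (m * m + 9) → ℝ) :=
      congrArg Subtype.val hxy
    have hx : snd ((x : E) : Fin (m * m + 9) → ℝ) = 0 := LinearMap.mem_ker.mp x.2
    have hy : snd ((y : E) : Fin (m * m + 9) → ℝ) = 0 := LinearMap.mem_ker.mp y.2
    apply Subtype.ext
    apply Subtype.ext
    rw [← incl_fst hx, ← incl_fst hy, h3]
  have h4 := LinearMap.finrank_le_finrank_of_injective hinj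
  omega

lemma T2_of_TypeTwo (m : ℕ) (E : Submodule ℝ (Fin (m * m + 9) → ℝ)) (T : ℝ)
    (h : TypeTwo (NX m) E T) :
    T2 ((E.comap (incl m) : Submodule ℝ (Fin m × Fin m → ℝ)) : Set (Fin m × Fin m → ℝ))
      ((max T 0) ^ 2) := by
  intro K y hy
  have h1 := h K (fun k => incl m (y k)) (fun k => hy k)
  rw [rad_eq] at h1
  have h2 : ∀ e : Fin K → ℤˣ, NX m (∑ i, sg (e i) • incl m (y i)) = nn (∑ i, sg (e i) • y i) := by
    intro e
    rw [← NX_incl, map_sum]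
    simp_rw [map_smul]
  simp_rw [h2, NX_incl] at h1
  set Q := 𝔼 e : Fin K → ℤˣ, nn (∑ i, sg (e i) • y i) ^ 2 with hQ
  have hQ0 : 0 ≤ Q := Finset.expect_nonneg (fun e _ => sq_nonneg _)
  have hS0 : 0 ≤ ∑ i, nn (y i) ^ 2 := Finset.sum_nonneg (fun _ _ => sq_nonneg _)
  have h3 : Real.sqrt Q ≤ max T 0 * Real.sqrt (∑ i, nn (y i) ^ 2) :=
    h1.trans (mul_le_mul_of_nonneg_right (le_max_left _ _) (Real.sqrt_nonneg _))
  have h4 : Real.sqrt Q ^ 2 ≤ (max T 0 * Real.sqrt (∑ i, nn (y i) ^ 2)) ^ 2 :=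
    pow_le_pow_left₀ (Real.sqrt_nonneg _) h3 2
  rw [Real.sq_sqrt hQ0, mul_pow, Real.sq_sqrt hS0] at h4
  exact h4

theorem lower_bound (t : ℕ) (ht : 2 ≤ t) (m : ℕ) (hm : m = t ^ (2 * t))
    (E : Submodule ℝ (Fin (m * m + 9) → ℝ))
    (hE : ((m * m + 9 : ℕ) : ℝ) / 2 ≤ Module.finrank ℝ E) (T : ℝ) (hT : TypeTwo (NX m) E T) :
    1 ≤ 48 * (max T 0) ^ 2 * (Real.sqrt (6 / t) + 2 / t) := by
  obtain ⟨P, hP1, hP2, hP3, hP4⟩ := exists_proj (E.comap (incl m))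
  refine main_estimate t (by omega) m hm P (E.comap (incl m)) ((max T 0) ^ 2)
    (T2_of_TypeTwo m E T hT) (sq_nonneg _) hP1 ?_ hP2 hP3
  rw [hP4]
  have h1 : (Module.finrank ℝ E : ℝ) ≤ Module.finrank ℝ (E.comap (incl m)) + 9 := by
    exact_mod_cast finrank_le m E
  have h2 : (16 : ℝ) ≤ m := by
    have : 16 ≤ m := by
      rw [hm]
      calc 16 = 2 ^ (2 * 2) := by norm_num
        _ ≤ t ^ (2 * 2) := Nat.pow_le_pow_left ht _
        _ ≤ t ^ (2 * t) := Nat.pow_le_pow_right (by omega) (by omega)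
    exact_mod_cast this
  push_cast at hE
  nlinarith

/-- for every bound `B` there is a `t` with a large lower bound -/
lemma exists_t (B : ℝ) : ∃ t : ℕ, 2 ≤ t ∧ 48 * (max B 0) ^ 2 * (Real.sqrt (6 / t) + 2 / t) < 1 := by
  have h1 : Filter.Tendsto (fun t : ℕ => 48 * (max B 0) ^ 2 * (Real.sqrt (6 / t) + 2 / t))
      Filter.atTop (nhds (48 * (max B 0) ^ 2 * (Real.sqrt 0 + 0))) := by
    apply Filter.Tendsto.const_mul
    apply Filter.Tendsto.add
    · exact (tendsto_const_div_atTop_nhds_zero_nat 6).sqrt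
    · exact tendsto_const_div_atTop_nhds_zero_nat 2
  simp only [Real.sqrt_zero, add_zero, mul_zero] at h1
  have h2 := h1.eventually (gt_mem_nhds (show (0 : ℝ) < 1 by norm_num))
  obtain ⟨t, ht, ht2⟩ := (h2.and (Filter.eventually_ge_atTop 2)).exists
  exact ⟨t, ht2, ht⟩

theorem negated_form (B : ℝ) : ∃ (n : ℕ) (N : (Fin n → ℝ) → ℝ), IsNorm N ∧
    IsCotypeConst N 4 (Real.sqrt 3) ∧
    ∀ E : Submodule ℝ (Fin n → ℝ), (n : ℝ) / 2 ≤ Module.finrank ℝ E →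
      ∀ T : ℝ, TypeTwo N E T → B < T := by
  obtain ⟨t, ht, hB⟩ := exists_t B
  refine ⟨t ^ (2 * t) * t ^ (2 * t) + 9, NX (t ^ (2 * t)), isNorm_NX _, isCotypeConst_NX _, ?_⟩
  intro E hE T hT
  have h := lower_bound t ht (t ^ (2 * t)) rfl E hE T hT
  by_contra hcon
  push Not at hcon
  have h1 : (max T 0) ^ 2 ≤ (max B 0) ^ 2 :=
    pow_le_pow_left₀ (le_max_right _ _) (max_le_max_right 0 hcon) 2
  have h2 : 0 ≤ Real.sqrt (6 / t) + 2 / t := by positivity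
  have h3 : 48 * (max T 0) ^ 2 * (Real.sqrt (6 / t) + 2 / t)
      ≤ 48 * (max B 0) ^ 2 * (Real.sqrt (6 / t) + 2 / t) :=
    mul_le_mul_of_nonneg_right (by linarith) h2
  linarith

/-- **Q1 is disproved.**

(1) There is no function `f` such that every normed space `X = (ℝⁿ, N)` contains, for every
`q ≥ 2`, a subspace `E` with `dim E ≥ n/2` and `T₂(E) ≤ f(q, C_q(X))`.

(2) The negated form, for `q = 4` and `C = √3`: for every `B` there is a finite-dimensional normed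
space `X = (ℝⁿ, N)` with `C₄(X) = √3` such that `T₂(E) > B` for every subspace `E` of `X` with
`dim E ≥ n/2`. -/
theorem result :
    (¬ ∃ f : ℝ → ℝ → ℝ, ∀ (n : ℕ) (N : (Fin n → ℝ) → ℝ), IsNorm N →
      ∀ q c : ℝ, 2 ≤ q → IsCotypeConst N q c →
        ∃ E : Submodule ℝ (Fin n → ℝ), (n : ℝ) / 2 ≤ Module.finrank ℝ E ∧ TypeTwo N E (f q c)) ∧
    (∀ B : ℝ, ∃ (n : ℕ) (N : (Fin n → ℝ) → ℝ), IsNorm N ∧
      IsCotypeConst N 4 (Real.sqrt 3) ∧
      ∀ E : Submodule ℝ (Fin n → ℝ), (n : ℝ) / 2 ≤ Module.finrank ℝ E →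
        ∀ T : ℝ, TypeTwo N E T → B < T) := by
  refine ⟨?_, negated_form⟩
  rintro ⟨f, hf⟩
  obtain ⟨n, N, hN, hc, hE⟩ := negated_form (f 4 (Real.sqrt 3))
  obtain ⟨E, hdim, hT⟩ := hf n N hN 4 (Real.sqrt 3) (by norm_num) hc
  exact lt_irrefl _ (hE E hdim _ hT)

end Pool.Agent.Results.MP_138624_an.ProportionalTypeTwo
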